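import Mathlib
import Pool.Agent.Y109.PI.Mat

/-! Counting alternating matrices over a finite field with prescribed kernel vectors. -/

set_option autoImplicit false
set_option linter.all false

open Matrix

namespace Pool.Agent.Q46.PIdx

open Pool.Agent.Y109.PI

theorem card_ker_range {F A B : Type*} [Field F] [AddCommGroup A] [AddCommGroup B] [Module F A] [Module F B]
    (f : A →ₗ[F] B) :
    Nat.card (LinearMap.ker f) * Nat.card (LinearMap.range f) = Nat.card A := by
  have h2 : Nat.card (A ⧸ LinearMap.ker f) = Nat.card (LinearMap.range f) :=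
    Nat.card_congr (LinearMap.quotKerEquivRange f).toEquiv
  have h1 := AddSubgroup.card_eq_card_quotient_mul_card_addSubgroup (LinearMap.ker f).toAddSubgroup
  have h3 : Nat.card (A ⧸ (LinearMap.ker f).toAddSubgroup) = Nat.card (A ⧸ LinearMap.ker f) := rfl
  have h4 : Nat.card (LinearMap.ker f).toAddSubgroup = Nat.card (LinearMap.ker f) := rfl
  rw [h3, h4, h2] at h1
  rw [h1, mul_comm]

section

variable {F : Type*} [Field F] {I : Type*} [Fintype I] [DecidableEq I]

variable (F I) in
/-- the space of alternating matrices -/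
def altG : Submodule F (Matrix I I F) where
  carrier := {b | Alt b}
  add_mem' := fun {a b} ha hb => ⟨fun u => by rw [Matrix.add_apply, ha.1, hb.1, add_zero],
    fun u v => by rw [Matrix.add_apply, Matrix.add_apply, ha.2 u v, hb.2 u v]; ring⟩
  zero_mem' := ⟨fun u => rfl, fun u v => by simp⟩
  smul_mem' := fun c a ha => ⟨fun u => by rw [Matrix.smul_apply, ha.1, smul_zero],
    fun u v => by rw [Matrix.smul_apply, Matrix.smul_apply, ha.2 u v, smul_neg]⟩

omit [Fintype I] [DecidableEq I] in
theorem mem_altG {b : Matrix I I F} : b ∈ altG F I ↔ Alt b := Iff.rfl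

/-- evaluation at a vector -/
def ev (x : I → F) : altG F I →ₗ[F] (I → F) where
  toFun := fun ω => ω.1 *ᵥ x
  map_add' := fun a b => by rw [Submodule.coe_add, Matrix.add_mulVec]
  map_smul' := fun c a => by rw [Submodule.coe_smul, Matrix.smul_mulVec]; rfl

theorem ev_apply (x : I → F) (ω : altG F I) : ev x ω = ω.1 *ᵥ x := rfl

/-- the functional of a vector -/
def dt (x : I → F) : (I → F) →ₗ[F] F where
  toFun := fun y => x ⬝ᵥ y
  map_add' := fun a b => dotProduct_add _ _ _
  map_smul' := fun c a => by rw [dotProduct_smul]; rfl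

theorem dt_apply (x y : I → F) : dt x y = x ⬝ᵥ y := rfl

theorem wdg_mulVec (e f a : I → F) : wdg e f *ᵥ a = (f ⬝ᵥ a) • e - (e ⬝ᵥ a) • f := by
  funext v
  simp only [mulVec, dotProduct, wdg, Matrix.of_apply, Pi.sub_apply, Pi.smul_apply, smul_eq_mul, Finset.sum_mul,
    ← Finset.sum_sub_distrib]
  refine Finset.sum_congr rfl fun w _ => ?_
  ring

theorem dt_range {x : I → F} (hx : x ≠ 0) : LinearMap.range (dt x) = ⊤ := by
  obtain ⟨i, hi⟩ : ∃ i, x i ≠ 0 := by
    by_contra h
    push Not at h
    exact hx (funext h)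
  rw [LinearMap.range_eq_top]
  intro c
  refine ⟨Pi.single i ((x i)⁻¹ * c), ?_⟩
  rw [dt_apply, dotProduct_single, ← mul_assoc, mul_inv_cancel₀ hi, one_mul]

theorem ev_range {x : I → F} (hx : x ≠ 0) : LinearMap.range (ev x) = LinearMap.ker (dt x) := by
  obtain ⟨i, hi⟩ : ∃ i, x i ≠ 0 := by
    by_contra h
    push Not at h
    exact hx (funext h)
  apply le_antisymm
  · rintro _ ⟨ω, rfl⟩
    rw [LinearMap.mem_ker, dt_apply, ev_apply]
    exact alt_dot_self ω.2 x
  · intro y hy
    rw [LinearMap.mem_ker, dt_apply] at hy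
    refine ⟨⟨wdg y (Pi.single i (x i)⁻¹), alt_wdg _ _⟩, ?_⟩
    rw [ev_apply, wdg_mulVec, single_dotProduct, inv_mul_cancel₀ hi, one_smul, dotProduct_comm y x, hy, zero_smul,
      sub_zero]

variable [Fintype F]

theorem card_dt {x : I → F} (hx : x ≠ 0) :
    Nat.card (LinearMap.ker (dt x)) * Nat.card F = Nat.card F ^ Fintype.card I := by
  have h := card_ker_range (dt x)
  have h1 : Nat.card (LinearMap.range (dt x)) = Nat.card F := by
    rw [dt_range hx]
    exact Nat.card_congr Submodule.topEquiv.toEquiv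
  rw [h1] at h
  rw [h, Nat.card_fun, Nat.card_eq_fintype_card (α := I)]

theorem card_alt1 {x : I → F} (hx : x ≠ 0) :
    Nat.card (LinearMap.ker (ev x)) * Nat.card F ^ Fintype.card I = Nat.card (altG F I) * Nat.card F := by
  have h := card_ker_range (ev x)
  rw [ev_range hx] at h
  rw [← card_dt hx, ← mul_assoc, h]

/-- dual vectors -/
theorem exists_dual {x y : I → F} (hx : x ≠ 0) (hy : ∀ t : F, y ≠ t • x) :
    ∃ a b : I → F, a ⬝ᵥ x = 1 ∧ a ⬝ᵥ y = 0 ∧ b ⬝ᵥ x = 0 ∧ b ⬝ᵥ y = 1 := by
  obtain ⟨i, hi⟩ : ∃ i, x i ≠ 0 := by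
    by_contra h
    push Not at h
    exact hx (funext h)
  obtain ⟨j, hj⟩ : ∃ j, y j ≠ (y i * (x i)⁻¹) * x j := by
    by_contra h
    push Not at h
    exact hy (y i * (x i)⁻¹) (funext h)
  have hD : x i * y j - x j * y i ≠ 0 := by
    intro h
    apply hj
    field_simp
    linear_combination h
  refine ⟨Pi.single i (y j / (x i * y j - x j * y i)) - Pi.single j (y i / (x i * y j - x j * y i)),
    Pi.single j (x i / (x i * y j - x j * y i)) - Pi.single i (x j / (x i * y j - x j * y i)), ?_, ?_, ?_, ?_⟩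
  · rw [sub_dotProduct, single_dotProduct, single_dotProduct, div_mul_eq_mul_div, div_mul_eq_mul_div, ← sub_div,
      div_eq_one_iff_eq hD]
    ring
  · rw [sub_dotProduct, single_dotProduct, single_dotProduct]
    field_simp
    ring
  · rw [sub_dotProduct, single_dotProduct, single_dotProduct]
    field_simp
    ring
  · rw [sub_dotProduct, single_dotProduct, single_dotProduct, div_mul_eq_mul_div, div_mul_eq_mul_div, ← sub_div,
      div_eq_one_iff_eq hD]

/-- compatibility functionals -/
def psi (x y : I → F) : ((I → F) × (I → F)) →ₗ[F] F × F × F where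
  toFun := fun q => (x ⬝ᵥ q.1, y ⬝ᵥ q.2, y ⬝ᵥ q.1 + x ⬝ᵥ q.2)
  map_add' := fun a b => by
    simp only [Prod.fst_add, Prod.snd_add, dotProduct_add, Prod.mk_add_mk]
    congr 2
    ring
  map_smul' := fun c a => by
    simp only [Prod.smul_fst, Prod.smul_snd, dotProduct_smul, Prod.smul_mk, RingHom.id_apply, smul_add]

theorem card_alt2 {x y : I → F} (hx : x ≠ 0) (hy : ∀ t : F, y ≠ t • x) :
    Nat.card (LinearMap.ker ((ev x).prod (ev y))) * Nat.card F ^ (2 * Fintype.card I) ≤
      Nat.card (altG F I) * Nat.card F ^ 3 := by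
  obtain ⟨a, b, hax, hay, hbx, hby⟩ := exists_dual hx hy
  have hle : LinearMap.ker (psi x y) ≤ LinearMap.range ((ev x).prod (ev y)) := by
    rintro ⟨s, t⟩ h
    rw [LinearMap.mem_ker] at h
    simp only [psi, LinearMap.coe_mk, AddHom.coe_mk, Prod.mk_eq_zero] at h
    obtain ⟨h1, h2, h3⟩ := h
    refine ⟨⟨wdg s a + wdg t b + (y ⬝ᵥ s) • wdg a b, ?_⟩, ?_⟩
    · exact (altG F I).add_mem ((altG F I).add_mem (alt_wdg _ _) (alt_wdg _ _)) ((altG F I).smul_mem _ (alt_wdg _ _))
    · have h1' : s ⬝ᵥ x = 0 := by rw [dotProduct_comm]; exact h1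
      have h2' : t ⬝ᵥ y = 0 := by rw [dotProduct_comm]; exact h2
      have h3' : t ⬝ᵥ x = - (y ⬝ᵥ s) := by
        rw [dotProduct_comm]
        linear_combination h3
      have h4' : s ⬝ᵥ y = y ⬝ᵥ s := dotProduct_comm _ _
      rw [LinearMap.prod_apply]
      change ((_ : I → F), (_ : I → F)) = _
      rw [ev_apply, ev_apply]
      simp only [Matrix.add_mulVec, Matrix.smul_mulVec, wdg_mulVec, hax, hay, hbx, hby, h1', h2', h3', h4']
      ext i
      · simp only [Pi.add_apply, Pi.sub_apply, Pi.smul_apply, smul_eq_mul]; ring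
      · simp only [Pi.add_apply, Pi.sub_apply, Pi.smul_apply, smul_eq_mul]; ring
  have h1 := card_ker_range ((ev x).prod (ev y))
  have h2 := card_ker_range (psi x y)
  have h3 : Nat.card (LinearMap.range (psi x y)) ≤ Nat.card F ^ 3 := by
    have h5 : Nat.card (LinearMap.range (psi x y)) ≤ Nat.card (F × F × F) :=
      Nat.card_le_card_of_injective _ (Subtype.val_injective)
    rw [Nat.card_prod, Nat.card_prod] at h5
    calc _ ≤ _ := h5
      _ = _ := by ring
  have h4 : Nat.card (LinearMap.ker (psi x y)) ≤ Nat.card (LinearMap.range ((ev x).prod (ev y))) :=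
    Nat.card_le_card_of_injective _ (Submodule.inclusion_injective hle)
  have h5 : Nat.card ((I → F) × (I → F)) = Nat.card F ^ (2 * Fintype.card I) := by
    rw [Nat.card_prod, Nat.card_fun, Nat.card_eq_fintype_card (α := I)]
    ring
  rw [h5] at h2
  calc Nat.card (LinearMap.ker ((ev x).prod (ev y))) * Nat.card F ^ (2 * Fintype.card I)
      = Nat.card (LinearMap.ker ((ev x).prod (ev y))) *
          (Nat.card (LinearMap.ker (psi x y)) * Nat.card (LinearMap.range (psi x y))) := by rw [h2]
    _ ≤ Nat.card (LinearMap.ker ((ev x).prod (ev y))) *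
          (Nat.card (LinearMap.range ((ev x).prod (ev y))) * Nat.card F ^ 3) :=
        Nat.mul_le_mul_left _ (Nat.mul_le_mul h4 h3)
    _ = _ := by rw [← mul_assoc, h1]

end

end Pool.Agent.Q46.PIdx
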