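import Mathlib
import Pool.Agent.Q46.PIdx.CntA

/-! Second moment of the number of kernel vectors of the translates of an alternating matrix. -/

set_option autoImplicit false
set_option linter.all false

open Matrix

namespace Pool.Agent.Q46.PIdx

open Pool.Agent.Y109.PI

section

variable {F : Type*} [Field F] [Fintype F] {I : Type*} [Fintype I] [DecidableEq I]
  {C : Type*} [AddCommGroup C] [Module F C] [Fintype C]

/-- vectors on which no nonzero element of the space vanishes -/
def goodv (L : C →ₗ[F] altG F I) (x : I → F) : Prop := ∀ c, (L c).1 *ᵥ x = 0 → c = 0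

noncomputable instance instFA : Fintype (altG F I) := Fintype.ofFinite _

open Classical in
/-- indicator of a kernel vector -/
noncomputable def fi (L : C →ₗ[F] altG F I) (ω : altG F I) (p : C × (I → F)) : ℚ :=
  if (ω + L p.1).1 *ᵥ p.2 = 0 then 1 else 0

theorem fi_nonneg (L : C →ₗ[F] altG F I) (ω : altG F I) (p : C × (I → F)) : 0 ≤ fi L ω p := by
  unfold fi; split_ifs <;> norm_num

theorem sum_one (L : C →ₗ[F] altG F I) (c : C) (x : I → F) :
    ∑ ω, fi L ω (c, x) = Nat.card (LinearMap.ker (ev (F := F) x)) := by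
  classical
  let g : altG F I → ℚ := fun ω => if ω.1 *ᵥ x = 0 then (1 : ℚ) else 0
  have h0 : ∀ ω : altG F I, fi L ω (c, x) = g (ω + L c) := fun ω => by
    by_cases h : (ω + L c).1 *ᵥ x = 0
    · have e1 : g (ω + L c) = 1 := if_pos h
      rw [e1]
      exact if_pos h
    · have e1 : g (ω + L c) = 0 := if_neg h
      rw [e1]
      exact if_neg h
  have h1 : ∑ ω : altG F I, fi L ω (c, x) = ∑ ω : altG F I, g ω := by
    simp only [h0]
    exact Fintype.sum_equiv (Equiv.addRight (L c)) (fun ω => g (ω + L c)) g fun ω => rfl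
  rw [h1, Finset.sum_boole, Nat.card_eq_fintype_card, Fintype.card_subtype]
  congr 2
  ext ω
  simp only [Finset.mem_filter, Finset.mem_univ, true_and, LinearMap.mem_ker, ev_apply]

theorem consist (L : C →ₗ[F] altG F I) (c c' : C) (x y : I → F) (ω : altG F I)
    (h1 : (ω + L c).1 *ᵥ x = 0) (h2 : (ω + L c').1 *ᵥ y = 0) : x ⬝ᵥ ((L (c - c')).1 *ᵥ y) = 0 := by
  have h3 : x ⬝ᵥ ((ω + L c).1 *ᵥ y) = 0 := by
    rw [alt_dot (ω + L c).2, h1, dotProduct_zero, neg_zero]
  have h4 : x ⬝ᵥ ((ω + L c').1 *ᵥ y) = 0 := by rw [h2, dotProduct_zero]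
  have h5 : (L (c - c')).1 = (ω + L c).1 - (ω + L c').1 := by
    rw [map_sub, Submodule.coe_sub, Submodule.coe_add, Submodule.coe_add]; abel
  rw [h5, Matrix.sub_mulVec, dotProduct_sub, h3, h4, sub_zero]

open Classical in
theorem sum_two (L : C →ₗ[F] altG F I) (c c' : C) (x y : I → F) :
    ∑ ω, fi L ω (c, x) * fi L ω (c', y) ≤
      if x ⬝ᵥ ((L (c - c')).1 *ᵥ y) = 0 then (Nat.card (LinearMap.ker ((ev (F := F) x).prod (ev y))) : ℚ) else 0 := by
  have h1 : ∑ ω, fi L ω (c, x) * fi L ω (c', y) =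
      ((Finset.univ.filter fun ω : altG F I => (ω + L c).1 *ᵥ x = 0 ∧ (ω + L c').1 *ᵥ y = 0).card : ℚ) := by
    rw [← Finset.sum_boole]
    refine Finset.sum_congr rfl fun ω _ => ?_
    simp only [fi]
    by_cases ha : (ω + L c).1 *ᵥ x = 0
    · by_cases hb : (ω + L c').1 *ᵥ y = 0
      · rw [if_pos ha, if_pos hb, if_pos ⟨ha, hb⟩, mul_one]
      · rw [if_pos ha, if_neg hb, if_neg (fun h => hb h.2), mul_zero]
    · rw [if_neg ha, zero_mul, if_neg (fun h => ha h.1)]
  rw [h1]
  rcases (Finset.univ.filter fun ω : altG F I => (ω + L c).1 *ᵥ x = 0 ∧ (ω + L c').1 *ᵥ y = 0).eq_empty_or_nonempty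
    with h | ⟨ω0, h0⟩
  · rw [h, Finset.card_empty, Nat.cast_zero]
    split_ifs
    · exact Nat.cast_nonneg _
    · exact le_rfl
  · rw [Finset.mem_filter] at h0
    rw [if_pos (consist L c c' x y ω0 h0.2.1 h0.2.2)]
    rw [Nat.card_eq_fintype_card, Fintype.card_subtype]
    refine Nat.cast_le.2 (Finset.card_le_card_of_injOn (fun ω => ω - ω0) ?_ ?_)
    · intro ω hω
      rw [Finset.mem_coe, Finset.mem_filter] at hω
      rw [Finset.mem_coe, Finset.mem_filter]
      refine ⟨Finset.mem_univ _, ?_⟩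
      rw [LinearMap.mem_ker, LinearMap.prod_apply]
      change ((_ : I → F), (_ : I → F)) = _
      rw [ev_apply, ev_apply]
      have e1 : (ω - ω0).1 = (ω + L c).1 - (ω0 + L c).1 := by
        rw [Submodule.coe_sub, Submodule.coe_add, Submodule.coe_add]; abel
      have e2 : (ω - ω0).1 = (ω + L c').1 - (ω0 + L c').1 := by
        rw [Submodule.coe_sub, Submodule.coe_add, Submodule.coe_add]; abel
      rw [Prod.mk_eq_zero]
      constructor
      · rw [e1, Matrix.sub_mulVec, hω.2.1, h0.2.1, sub_zero]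
      · rw [e2, Matrix.sub_mulVec, hω.2.2, h0.2.2, sub_zero]
    · intro a _ b _ h
      exact sub_left_injective h

/-- the number of elements of the space orthogonal to a pair -/
noncomputable def dl (L : C →ₗ[F] altG F I) (x y : I → F) : ℕ := Nat.card {d : C // x ⬝ᵥ ((L d).1 *ᵥ y) = 0}

open Classical in
theorem dl_eq (L : C →ₗ[F] altG F I) (x y : I → F) :
    (dl L x y : ℚ) = ∑ d : C, if x ⬝ᵥ ((L d).1 *ᵥ y) = 0 then (1 : ℚ) else 0 := by
  rw [dl, Nat.card_eq_fintype_card, Fintype.card_subtype, Finset.sum_boole]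

theorem dl_ge (L : C →ₗ[F] altG F I) (x y : I → F) : Nat.card C ≤ Nat.card F * dl L x y := by
  let φ : C →ₗ[F] F := (dt x).comp ((ev (F := F) y).comp L)
  have h1 := card_ker_range φ
  have h2 : Nat.card (LinearMap.range φ) ≤ Nat.card F :=
    Nat.card_le_card_of_injective _ (Subtype.val_injective)
  have h3 : Nat.card (LinearMap.ker φ) = dl L x y := rfl
  rw [← h1, h3, mul_comm]
  exact Nat.mul_le_mul_right _ h2

theorem dl_self (L : C →ₗ[F] altG F I) (x : I → F) (t : F) : dl L x (t • x) = Nat.card C := by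
  rw [dl]
  refine Nat.card_congr (Equiv.subtypeUnivEquiv fun d => ?_)
  rw [Matrix.mulVec_smul, dotProduct_smul, alt_dot_self (L d).2, smul_zero]

open Classical in
theorem dl_sum (L : C →ₗ[F] altG F I) (x : I → F) (hx : goodv L x) :
    (Nat.card F : ℚ) * ∑ y : I → F, (dl L x y : ℚ) =
      Nat.card F * (Nat.card F : ℚ) ^ Fintype.card I + (Nat.card C - 1) * (Nat.card F : ℚ) ^ Fintype.card I := by
  simp only [dl_eq]
  rw [Finset.sum_comm, Finset.mul_sum, ← Finset.add_sum_erase _ _ (Finset.mem_univ (0 : C))]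
  congr 1
  · have h0 : ∀ y : I → F, x ⬝ᵥ ((L 0).1 *ᵥ y) = 0 := fun y => by
      rw [map_zero, Submodule.coe_zero, Matrix.zero_mulVec, dotProduct_zero]
    simp only [h0, if_true]
    rw [Finset.sum_const, Finset.card_univ, Fintype.card_fun, nsmul_eq_mul, mul_one, Nat.card_eq_fintype_card]
    push_cast
    ring
  · rw [Finset.sum_congr rfl (g := fun _ => (Nat.card F : ℚ) ^ Fintype.card I), Finset.sum_const,
      Finset.card_erase_of_mem (Finset.mem_univ _), Finset.card_univ, nsmul_eq_mul,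
      Nat.cast_sub Fintype.card_pos, ← Nat.card_eq_fintype_card (α := C)]
    · push_cast
      ring
    · intro d hd
      have hd0 : d ≠ 0 := (Finset.mem_erase.1 hd).1
      have hne : (L d).1 *ᵥ x ≠ 0 := fun h => hd0 (hx d h)
      have h1 := card_dt hne
      have h2 : ∀ y : I → F, (x ⬝ᵥ ((L d).1 *ᵥ y) = 0) ↔ ((L d).1 *ᵥ x) ⬝ᵥ y = 0 := fun y => by
        rw [alt_dot (L d).2, neg_eq_zero, dotProduct_comm]
      simp only [h2]
      rw [Finset.sum_boole]
      have h3 : (Finset.univ.filter fun y : I → F => ((L d).1 *ᵥ x) ⬝ᵥ y = 0).card =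
          Nat.card (LinearMap.ker (dt ((L d).1 *ᵥ x))) := by
        rw [Nat.card_eq_fintype_card, Fintype.card_subtype]
        rfl
      rw [h3]
      exact_mod_cast (by rw [mul_comm]; exact h1 : Nat.card F * Nat.card (LinearMap.ker (dt ((L d).1 *ᵥ x))) = _)

end

end Pool.Agent.Q46.PIdx
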