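import Mathlib
import Pool.Agent.Q46.PIdx.CntC

/-! The lower bound for the number of matrices with a degenerate translate. -/

set_option autoImplicit false
set_option linter.all false

open Matrix

namespace Pool.Agent.Q46.PIdx

open Pool.Agent.Y109.PI

section

variable {F : Type*} [Field F] [Fintype F] {I : Type*} [Fintype I] [DecidableEq I]
  {C : Type*} [AddCommGroup C] [Module F C] [Fintype C]

open Classical in
theorem cnt_main [Nontrivial C] (L : C →ₗ[F] altG F I)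
    (hA : 0 < (Finset.univ.filter (fun y : I → F => goodv L y)).card) :
    (Nat.card C : ℚ) * (Finset.univ.filter (fun y : I → F => goodv L y)).card * Nat.card (altG F I) * Nat.card F ≤
      (Finset.univ.filter fun ω : altG F I => ∃ (c : C) (x : I → F), x ≠ 0 ∧ (ω + L c).1 *ᵥ x = 0).card *
        (((Nat.card F : ℚ) ^ 2 - 1) * (Nat.card F : ℚ) ^ Fintype.card I +
          Nat.card F * Nat.card C * ((Finset.univ.filter (fun y : I → F => goodv L y)).card + 1
            - (Nat.card F : ℚ) ^ 2)) := by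
  have hq : (0 : ℚ) < Nat.card F := Nat.cast_pos.2 Nat.card_pos
  have hR : (0 : ℚ) < Nat.card C := Nat.cast_pos.2 Nat.card_pos
  have hM : (0 : ℚ) < Nat.card (altG F I) := Nat.cast_pos.2 Nat.card_pos
  have hA' : (0 : ℚ) < ((Finset.univ.filter (fun y : I → F => goodv L y)).card : ℚ) := Nat.cast_pos.2 hA
  set XX := Finset.univ.filter (fun y : I → F => goodv L y) with hXX
  set GG := Finset.univ.filter (fun ω : altG F I => ∃ (c : C) (x : I → F), x ≠ 0 ∧ (ω + L c).1 *ᵥ x = 0) with hGG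
  set q : ℚ := (Nat.card F : ℚ) with hqd
  set R : ℚ := (Nat.card C : ℚ) with hRd
  set M : ℚ := (Nat.card (altG F I) : ℚ) with hMd
  set Y : ℚ := q ^ Fintype.card I with hYd
  have hY : 0 < Y := by positivity
  let X : altG F I → ℚ := fun ω => ∑ c : C, ∑ x ∈ XX, fi L ω (c, x)
  have hm : ∀ x ∈ XX, (Nat.card (LinearMap.ker (ev (F := F) x)) : ℚ) = M * q / Y := by
    intro x hx
    rw [hXX, Finset.mem_filter] at hx
    have hx0 : x ≠ 0 := fun h => not_goodv_zero L (h ▸ hx.2)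
    rw [eq_div_iff hY.ne', hYd, hMd, hqd]
    exact_mod_cast card_alt1 hx0
  have hS1 : ∑ ω, X ω = R * XX.card * (M * q / Y) := by
    simp only [X]
    rw [Finset.sum_comm]
    have h1 : ∀ c : C, ∑ ω, ∑ x ∈ XX, fi L ω (c, x) = XX.card * (M * q / Y) := by
      intro c
      rw [Finset.sum_comm, Finset.sum_congr rfl (g := fun _ => M * q / Y), Finset.sum_const, nsmul_eq_mul]
      intro x hx
      rw [sum_one, hm x hx]
    simp only [h1]
    rw [Finset.sum_const, Finset.card_univ, nsmul_eq_mul, hRd, Nat.card_eq_fintype_card, mul_assoc]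
  have hB : ∀ c : C, ∀ x ∈ XX, ∑ y ∈ XX, ∑ c' : C, ∑ ω, fi L ω (c, x) * fi L ω (c', y) ≤
      M * q / Y ^ 2 * ((q ^ 2 - 1) * Y + q * R * (XX.card + 1 - q ^ 2)) := by
    intro c x hx
    have hx' := hx
    rw [hXX, Finset.mem_filter] at hx'
    have h1 := pair_bound L x hx'.2 c
    rw [← hXX, hm x hx] at h1
    have h2 := D_bound L x hx'.2
    rw [← hXX] at h2
    set D := ∑ y ∈ Finset.univ.filter (fun y : I → F => goodv L y ∧ ∀ t : F, y ≠ t • x), (dl L x y : ℚ)
    refine h1.trans ?_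
    have h3 : (Nat.card F : ℚ) ^ (2 * Fintype.card I) = Y ^ 2 := by rw [hYd, hqd]; ring
    rw [h3]
    have h4 : M * q ^ 3 / Y ^ 2 * D = M * q ^ 2 / Y ^ 2 * (q * D) := by ring
    have h5 : M * q ^ 2 / Y ^ 2 * (q * D) ≤ M * q ^ 2 / Y ^ 2 * (q * Y - Y - q ^ 2 * R + (XX.card + 1) * R) :=
      mul_le_mul_of_nonneg_left h2 (by positivity)
    calc (q - 1) * (M * q / Y) + M * q ^ 3 / Y ^ 2 * D
        ≤ (q - 1) * (M * q / Y) + M * q ^ 2 / Y ^ 2 * (q * Y - Y - q ^ 2 * R + (XX.card + 1) * R) := by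
          rw [h4]; exact add_le_add_right h5 _
      _ = M * q / Y ^ 2 * ((q ^ 2 - 1) * Y + q * R * (XX.card + 1 - q ^ 2)) := by
          field_simp
          ring
  have hS2 : ∑ ω, X ω ^ 2 ≤ R * XX.card * (M * q / Y ^ 2 * ((q ^ 2 - 1) * Y + q * R * (XX.card + 1 - q ^ 2))) := by
    have h1 : ∀ ω, X ω ^ 2 = ∑ c : C, ∑ x ∈ XX, ∑ y ∈ XX, ∑ c' : C, fi L ω (c, x) * fi L ω (c', y) := by
      intro ω
      simp only [X]
      rw [sq, Finset.sum_mul]
      refine Finset.sum_congr rfl fun c _ => ?_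
      rw [Finset.sum_mul]
      refine Finset.sum_congr rfl fun x _ => ?_
      rw [Finset.mul_sum, Finset.sum_comm]
      refine Finset.sum_congr rfl fun c' _ => ?_
      rw [Finset.mul_sum]
    have h2 : ∑ ω, X ω ^ 2 = ∑ c : C, ∑ x ∈ XX, ∑ y ∈ XX, ∑ c' : C, ∑ ω, fi L ω (c, x) * fi L ω (c', y) := by
      simp only [h1]
      rw [Finset.sum_comm]
      refine Finset.sum_congr rfl fun c _ => ?_
      rw [Finset.sum_comm]
      refine Finset.sum_congr rfl fun x _ => ?_
      rw [Finset.sum_comm]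
      refine Finset.sum_congr rfl fun y _ => ?_
      rw [Finset.sum_comm]
    rw [h2]
    calc _ ≤ ∑ c : C, ∑ x ∈ XX, (M * q / Y ^ 2 * ((q ^ 2 - 1) * Y + q * R * (XX.card + 1 - q ^ 2))) :=
          Finset.sum_le_sum fun c _ => Finset.sum_le_sum fun x hx => hB c x hx
      _ = _ := by
          rw [Finset.sum_const, Finset.sum_const, Finset.card_univ, nsmul_eq_mul, nsmul_eq_mul,
            ← Nat.card_eq_fintype_card, ← hRd]
          ring
  have hzero : ∀ ω, ω ∉ GG → X ω = 0 := by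
    intro ω hω
    refine Finset.sum_eq_zero fun c _ => Finset.sum_eq_zero fun x hx => ?_
    rw [hXX, Finset.mem_filter] at hx
    refine if_neg fun h => hω ?_
    rw [hGG, Finset.mem_filter]
    exact ⟨Finset.mem_univ _, c, x, fun h0 => not_goodv_zero L (h0 ▸ hx.2), h⟩
  have hCS : (∑ ω, X ω) ^ 2 ≤ GG.card * ∑ ω, X ω ^ 2 := by
    have h1 : ∑ ω, X ω = ∑ ω ∈ GG, X ω := by
      symm
      exact Finset.sum_subset (Finset.subset_univ _) fun ω _ h => hzero ω h
    have h2 : ∑ ω ∈ GG, X ω ^ 2 ≤ ∑ ω, X ω ^ 2 :=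
      Finset.sum_le_sum_of_subset_of_nonneg (Finset.subset_univ _) fun _ _ _ => sq_nonneg _
    rw [h1]
    exact sq_sum_le_card_mul_sum_sq.trans (mul_le_mul_of_nonneg_left h2 (Nat.cast_nonneg _))
  rw [hS1] at hCS
  have h6 : (R * XX.card * (M * q / Y)) ^ 2 ≤ GG.card *
      (R * XX.card * (M * q / Y ^ 2 * ((q ^ 2 - 1) * Y + q * R * (XX.card + 1 - q ^ 2)))) :=
    hCS.trans (mul_le_mul_of_nonneg_left hS2 (Nat.cast_nonneg _))
  have h7 : (R * XX.card * (M * q / Y)) ^ 2 = (R * XX.card * (M * q / Y ^ 2)) * (R * XX.card * M * q) := by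
    field_simp
  have h8 : GG.card * (R * XX.card * (M * q / Y ^ 2 * ((q ^ 2 - 1) * Y + q * R * (XX.card + 1 - q ^ 2)))) =
      (R * XX.card * (M * q / Y ^ 2)) * (GG.card * ((q ^ 2 - 1) * Y + q * R * (XX.card + 1 - q ^ 2))) := by ring
  rw [h7, h8] at h6
  exact le_of_mul_le_mul_left h6 (by positivity)

end

end Pool.Agent.Q46.PIdx
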