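import Mathlib
import Pool.Agent.Q46.PIdx.CntF
import Pool.Agent.Y109.PI.Ord

/-! From alternating matrices modulo a prime to classes of symbols. -/

set_option autoImplicit false
set_option linter.all false

open Matrix

noncomputable section

namespace Pool.Agent.Q46.PIdx

open Pool.Agent.Y109.PI

section

variable {G B : Type*} [CommGroup G] [CommGroup B] {s : G →* G →* B} {I : Type*} [Fintype I] [DecidableEq I]

omit [DecidableEq I] in
/-- every alternating matrix modulo `p` is the reduction of a difference matrix -/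
theorem exists_lift (p : ℕ) [NeZero p] (ω : Matrix I I (ZMod p)) (hω : Alt ω) :
    ∃ w : I → I → ℤ, red p (dif w) = ω := by
  classical
  let e := Fintype.equivFin I
  refine ⟨fun u v => if e u < e v then ((ω u v).val : ℤ) else 0, ?_⟩
  ext u v
  simp only [red, dif, Matrix.map_apply, Matrix.of_apply, map_sub, eq_intCast]
  rcases lt_trichotomy (e u) (e v) with h | h | h
  · rw [if_pos h, if_neg (asymm h), vcast, Int.cast_zero, sub_zero]
  · have huv : u = v := e.injective h
    subst huv
    rw [sub_self, hω.1]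
  · rw [if_neg (asymm h), if_pos h, vcast, Int.cast_zero, zero_sub, hω.2 u v]

omit [Fintype I] [DecidableEq I] in
theorem dif_add (w w' : I → I → ℤ) : dif (w + w') = dif w + dif w' := by
  ext u v
  simp only [dif, Matrix.of_apply, Matrix.add_apply, Pi.add_apply]
  ring

omit [Fintype I] [DecidableEq I] in
theorem red_add (p : ℕ) (a b : Matrix I I ℤ) : red p (a + b) = red p a + red p b := by
  ext u v
  simp only [red, Matrix.map_apply, Matrix.add_apply, map_add]

/-- **the classes of symbols as a quotient of the alternating matrices modulo `p`** -/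
theorem transfer (hanti : ∀ a b, s a b = (s b a)⁻¹) (p : ℕ) [Fact p.Prime]
    (htors : ∀ a b, s a b ^ p = 1) (ε : G)
    (H : Subgroup G) (hε : ε ∈ H) (hdiag : ∀ a, s a a = 1 ∨ s a a = s a ε)
    (z : I → G) (hV : ∀ a ∈ H, ∀ b ∈ H, s a b ∈ (⊥ : Subgroup B)) (hlow : low s H ⊥ z ≤ ⊥) :
    ∃ f : altG (ZMod p) I →+ Additive B,
      (∀ (ω : altG (ZMod p) I) (w : I → I → ℤ), red p (dif w) = ω.1 → f ω = Additive.ofMul (Q s z w)) ∧
      ∀ α : B, α ∈ Subgroup.closure {γ | ∃ a ∈ H ⊔ Subgroup.closure (Set.range z),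
        ∃ b ∈ H ⊔ Subgroup.closure (Set.range z), γ = s a b} ↔ Additive.ofMul α ∈ f.range := by
  have hcongr : ∀ w w' : I → I → ℤ, red p (dif w) = red p (dif w') → Q s z w = Q s z w' := by
    intro w w' h
    have h1 := Q_congr hanti p htors ε H hε hdiag ⊥ z w w' (fun u v => by
      have h2 := congrFun (congrFun h u) v
      simp only [red, dif, Matrix.map_apply, Matrix.of_apply, eq_intCast] at h2
      rw [← ZMod.intCast_zmod_eq_zero_iff_dvd, Int.cast_sub, sub_eq_zero]
      exact h2)
    have h3 := hlow h1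
    rw [Subgroup.mem_bot, mul_inv_eq_one] at h3
    exact h3
  choose lf hlf using fun ω : altG (ZMod p) I => exists_lift p ω.1 ω.2
  let f : altG (ZMod p) I →+ Additive B :=
    AddMonoidHom.mk' (fun ω => Additive.ofMul (Q s z (lf ω))) (fun ω ω' => by
      rw [← ofMul_mul, ← Q_add]
      congr 1
      refine hcongr _ _ ?_
      rw [dif_add, red_add, hlf, hlf, hlf]
      rfl)
  have hf : ∀ (ω : altG (ZMod p) I) (w : I → I → ℤ), red p (dif w) = ω.1 →
      f ω = Additive.ofMul (Q s z w) := by
    intro ω w h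
    change Additive.ofMul (Q s z (lf ω)) = _
    congr 1
    exact hcongr _ _ (by rw [hlf, h])
  refine ⟨f, hf, fun α => ⟨fun hα => ?_, ?_⟩⟩
  · obtain ⟨w, hw⟩ := exists_Q hanti H ⊥ hV z α hα
    have h3 := hlow hw
    rw [Subgroup.mem_bot, mul_inv_eq_one] at h3
    refine ⟨⟨red p (dif w), (alt_dif w).map' _⟩, ?_⟩
    rw [hf _ w rfl, h3]
  · rintro ⟨ω, hω⟩
    have h1 : α = Q s z (lf ω) := by
      have h2 := hf ω (lf ω) (hlf ω)
      rw [h2] at hω
      exact (Additive.ofMul.injective hω).symm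
    rw [h1, Q]
    refine Subgroup.prod_mem _ fun q _ => Subgroup.zpow_mem _ (Subgroup.subset_closure ?_) _
    exact ⟨z q.1, le_sup_right (a := H) (Subgroup.subset_closure ⟨q.1, rfl⟩), z q.2,
      le_sup_right (a := H) (Subgroup.subset_closure ⟨q.2, rfl⟩), rfl⟩

/-- degenerate matrices give products of `g - 1` symbols -/
theorem sing_prod (p : ℕ) [Fact p.Prime] (g : ℕ) (hg : 0 < g) (hI : Fintype.card I = 2 * g) (z : I → G)
    (f : altG (ZMod p) I →+ Additive B)
    (hf : ∀ (ω : altG (ZMod p) I) (w : I → I → ℤ), red p (dif w) = ω.1 → f ω = Additive.ofMul (Q s z w))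
    (ω : altG (ZMod p) I) (hω : ω.1.det = 0) :
    ∃ x y : Fin (g - 1) → G, f ω = Additive.ofMul (∏ i, s (x i) (y i)) := by
  haveI : NeZero p := ⟨(Fact.out : p.Prime).ne_zero⟩
  obtain ⟨e, e', h⟩ := sing_decomp g hg hI ω.1 ω.2 hω
  refine ⟨fun i => mon z fun u => ((e i u).val : ℤ), fun i => mon z fun u => ((e' i u).val : ℤ), ?_⟩
  rw [hf ω (∑ i, fun u v => ((e i u).val : ℤ) * ((e' i v).val : ℤ))]
  · congr 1
    rw [Q_sum]
    exact Finset.prod_congr rfl fun i _ => (s_mon s z _ _).symm
  · rw [h]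
    ext u v
    simp only [red, dif, Matrix.map_apply, Matrix.of_apply, map_sub, eq_intCast, Finset.sum_apply,
      Int.cast_sum, Matrix.sum_apply, wdg]
    rw [← Finset.sum_sub_distrib]
    refine Finset.sum_congr rfl fun i _ => ?_
    push_cast
    simp only [ZMod.natCast_val, ZMod.cast_id', id]
    ring

/-- counting along a homomorphism -/
theorem card_fib {A N : Type*} [AddCommGroup A] [AddCommGroup N] [Finite A] (f : A →+ N) (S : Set N) (P : Set A)
    (hS : S ⊆ Set.range f) (hP : ∀ ω, f ω ∈ S → ω ∈ P) : Nat.card S * Nat.card f.ker ≤ Nat.card P := by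
  have h1 : ∀ x : S, ∃ a : A, f a = x.1 := fun x => hS x.2
  choose σ hσ using h1
  rw [← Nat.card_prod]
  have hmem : ∀ q : S × f.ker, σ q.1 + q.2.1 ∈ P := fun q => by
    apply hP
    rw [map_add, hσ, (AddMonoidHom.mem_ker).1 q.2.2, add_zero]
    exact q.1.2
  refine Nat.card_le_card_of_injective (fun q : S × f.ker => (⟨σ q.1 + q.2.1, hmem q⟩ : P)) ?_
  rintro ⟨x, k⟩ ⟨x', k'⟩ h
  have h2 : σ x + k.1 = σ x' + k'.1 := congrArg Subtype.val h
  have h3 : x = x' := by
    have h4 := congrArg f h2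
    rw [map_add, map_add, hσ, hσ, (AddMonoidHom.mem_ker).1 k.2, (AddMonoidHom.mem_ker).1 k'.2, add_zero,
      add_zero] at h4
    exact Subtype.ext h4
  subst h3
  rw [Prod.mk.injEq]
  exact ⟨rfl, Subtype.ext (add_left_cancel h2)⟩

theorem card_ran {A N : Type*} [AddCommGroup A] [AddCommGroup N] [Finite A] (f : A →+ N) :
    Nat.card f.range * Nat.card f.ker = Nat.card A := by
  have h1 := AddSubgroup.card_eq_card_quotient_mul_card_addSubgroup f.ker
  rw [Nat.card_congr (QuotientAddGroup.quotientKerEquivRange f).toEquiv] at h1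
  exact h1.symm

end

end Pool.Agent.Q46.PIdx
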