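import Mathlib
import Pool.Agent.Q46.PIdx.Tr

/-! Counting the classes which are products of few symbols. -/

set_option autoImplicit false
set_option linter.all false

open Matrix

noncomputable section

namespace Pool.Agent.Q46.PIdx

open Pool.Agent.Y109.PI

section

variable {G B : Type*} [CommGroup G] [CommGroup B] {s : G →* G →* B} {I : Type*} [Fintype I] [DecidableEq I]

/-- the space of relations -/
def LL (p : ℕ) [Fact p.Prime] {r : ℕ} (w : Fin r → I → I → ℤ) : (Fin r → ZMod p) →ₗ[ZMod p] altG (ZMod p) I :=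
  Fintype.linearCombination (ZMod p) (fun i => (⟨red p (dif (w i)), (alt_dif (w i)).map' _⟩ : altG (ZMod p) I))

theorem LL_apply (p : ℕ) [Fact p.Prime] {r : ℕ} (w : Fin r → I → I → ℤ) (c : Fin r → ZMod p) :
    (LL p w c).1 = ∑ i, c i • red p (dif (w i)) := by
  rw [LL, Fintype.linearCombination_apply, Submodule.coe_sum]
  rfl

/-- **the counting principle** -/
theorem abs_count (hanti : ∀ a b, s a b = (s b a)⁻¹) (p : ℕ) [Fact p.Prime]
    (htors : ∀ a b, s a b ^ p = 1) (ε : G)
    (H : Subgroup G) (hε : ε ∈ H) (hdiag : ∀ a, s a a = 1 ∨ s a a = s a ε)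
    (z : I → G) (hV : ∀ a ∈ H, ∀ b ∈ H, s a b ∈ (⊥ : Subgroup B)) (hlow : low s H ⊥ z ≤ ⊥)
    (g : ℕ) (hg : 0 < g) (hI : Fintype.card I = 2 * g) (Bc : Subgroup B)
    (hBc : Bc = Subgroup.closure {γ | ∃ a ∈ H ⊔ Subgroup.closure (Set.range z),
        ∃ b ∈ H ⊔ Subgroup.closure (Set.range z), γ = s a b})
    (good : Set B) (hgood : ∀ α ∈ Bc, (∃ x y : Fin (g - 1) → G, α = ∏ i, s (x i) (y i)) → α ∈ good) :
    Finite Bc ∧ ∀ (r : ℕ) (w : Fin r → I → I → ℤ), (∀ i, Q s z (w i) = 1) →
      ∃ m : ℕ, 0 < m ∧ Nat.card {α : B // α ∈ Bc ∧ α ∉ good} * m ≤ Nat.card (badM (LL p w)) ∧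
        Nat.card Bc * m = Nat.card (altG (ZMod p) I) := by
  haveI : NeZero p := ⟨(Fact.out : p.Prime).ne_zero⟩
  obtain ⟨f, hf, hran⟩ := transfer hanti p htors ε H hε hdiag z hV hlow
  have hcB : Nat.card Bc = Nat.card f.range := by
    refine Nat.card_congr ⟨fun α => ⟨Additive.ofMul α.1, (hran α.1).1 (hBc ▸ α.2)⟩,
      fun a => ⟨Additive.toMul a.1, ?_⟩, fun α => rfl, fun a => rfl⟩
    rw [hBc]
    exact (hran _).2 a.2
  have hfin : Finite f.range := by
    haveI : Finite (altG (ZMod p) I) := inferInstance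
    exact Set.finite_range f |>.to_subtype
  have hpos : 0 < Nat.card f.range := Nat.card_pos
  refine ⟨Nat.finite_of_card_ne_zero (by rw [hcB]; exact hpos.ne'), fun r w hw => ⟨Nat.card f.ker, Nat.card_pos, ?_, ?_⟩⟩
  · have hL : ∀ c, f (LL p w c) = 0 := by
      intro c
      rw [LL, Fintype.linearCombination_apply, map_sum]
      refine Finset.sum_eq_zero fun i _ => ?_
      have h1 : c i • (⟨red p (dif (w i)), (alt_dif (w i)).map' _⟩ : altG (ZMod p) I) =
          (c i).val • (⟨red p (dif (w i)), (alt_dif (w i)).map' _⟩ : altG (ZMod p) I) := by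
        rw [← Nat.cast_smul_eq_nsmul (ZMod p), ZMod.natCast_zmod_val]
      rw [h1, map_nsmul, hf _ (w i) rfl, hw i]
      exact nsmul_zero _
    have h2 := card_fib f {a | Additive.toMul a ∈ Bc ∧ Additive.toMul a ∉ good} (badM (LL p w))
      (fun a ha => by
        have h3 := (hran (Additive.toMul a)).1 (hBc ▸ ha.1)
        exact h3)
      (fun ω hω => by
        intro c hc
        obtain ⟨x, y, h3⟩ := sing_prod p g hg hI z f hf (ω + LL p w c) hc
        rw [map_add, hL, add_zero] at h3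
        refine hω.2 (hgood _ hω.1 ⟨x, y, ?_⟩)
        rw [h3]
        rfl)
    exact h2
  · rw [hcB]
    exact card_ran f

end

end Pool.Agent.Q46.PIdx
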